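import Mathlib

set_option autoImplicit false
set_option linter.unusedSectionVars false

/-!
# MP_035205_an: a contractive idempotent onto a ternary subspace without blockwise extension

Right Hilbert `B`-modules are modelled by Mathlib's class `CStarModule Bᵐᵒᵖ E`: the right action is
`x · b = MulOpposite.op b • x`, and the `B`-valued inner product (linear in the second variable) is
`⟨x, y⟩ = MulOpposite.unop (inner Bᵐᵒᵖ x y)`, so that `⟨x, y · b⟩ = ⟨x, y⟩ * b`.

An element of the reduced linking algebra `L(E) = K(B_E ⊕ E)` is a matrix `(b, y*; x, k)` with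
`b ∈ B_E`, `x, y ∈ E`, `k ∈ K(E)`, acting on `B_E ⊕ E` by `(c, z) ↦ (b c + ⟨y, z⟩, x c + k z)`.
A blockwise linear map `L(E) → L(F)` is a quadruple of linear maps between the four corners.
-/

open MulOpposite

namespace Pool.Agent.Results.MP_035205_an.ContractiveIdempotent

section Definitions

/-- The right action `x · b` of `b : B` on an element `x` of a right Hilbert `B`-module. -/
def act {B E : Type} [SMul Bᵐᵒᵖ E] (x : E) (b : B) : E := op b • x

variable (B : Type) [NonUnitalCStarAlgebra B] [PartialOrder B] [StarOrderedRing B]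
variable {E : Type} [NormedAddCommGroup E] [NormedSpace ℂ E] [SMul Bᵐᵒᵖ E] [CStarModule Bᵐᵒᵖ E]

/-- The `B`-valued inner product `⟨x, y⟩` of a right Hilbert `B`-module, linear in `y`. -/
noncomputable def ip (x y : E) : B := unop (inner Bᵐᵒᵖ x y)

/-- For a subspace `S` of `E`: the closed linear span `C_S` of `⟨S, S⟩` in `B`.
For `S = ⊤` this is `B_E`. -/
noncomputable def coeff (S : Submodule ℂ E) : Submodule ℂ B :=
  (Submodule.span ℂ {b : B | ∃ x ∈ S, ∃ y ∈ S, b = ip B x y}).topologicalClosure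

/-- For a subspace `S` of `E`: the closed linear span `K(S)` (in the operator norm) of the
operators `x⟨y, ·⟩ : E → E` with `x, y ∈ S`. -/
noncomputable def compacts (S : Submodule ℂ E) : Submodule ℂ (E →L[ℂ] E) :=
  (Submodule.span ℂ {T : E →L[ℂ] E | ∃ x ∈ S, ∃ y ∈ S, ∀ z : E, T z = act x (ip B y z)}
    ).topologicalClosure

/-- The Hilbert module norm `‖c* c + ⟨z, z⟩‖^(1/2)` of the element `(c, z)` of `B ⊕ E`. -/
noncomputable def pairNorm (c : B) (z : E) : ℝ := √‖star c * c + ip B z z‖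

/-- The matrix `(b, y*; x, k)`, as an operator on the Hilbert module `B_E ⊕ E`, has norm at most
`M` (for `M ≥ 0`). -/
def NormLE (M : ℝ) (b : B) (y x : E) (k : E →L[ℂ] E) : Prop :=
  ∀ c ∈ coeff B (⊤ : Submodule ℂ E), ∀ z : E,
    pairNorm B (b * c + ip B y z) (act x c + k z) ≤ M * pairNorm B c z

/-- The blockwise linear map `Φ` given by `(b, y*; x, k) ↦ (Φ₁₁ b, (Φ₁₂ y)*; P x, Φ₂₂ k)` is a
blockwise conditional expectation of `L(E)` onto `L(F)`: it maps `L(E)` into `L(F)`, it is the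
identity on `L(F)`, and it has norm at most one. (Only the values of `Φ₁₁` on `B_E` and of `Φ₂₂`
on `K(E)` matter.) -/
structure IsBlockwiseCondExp (F : Submodule ℂ E) (Φ₁₁ : B →ₗ[ℂ] B) (Φ₁₂ P : E →ₗ[ℂ] E)
    (Φ₂₂ : (E →L[ℂ] E) →ₗ[ℂ] (E →L[ℂ] E)) : Prop where
  mem₁₁ : ∀ b ∈ coeff B (⊤ : Submodule ℂ E), Φ₁₁ b ∈ coeff B F
  mem₁₂ : ∀ y, Φ₁₂ y ∈ F
  mem₂₁ : ∀ x, P x ∈ F
  mem₂₂ : ∀ k ∈ compacts B (⊤ : Submodule ℂ E), Φ₂₂ k ∈ compacts B F
  idem₁₁ : ∀ b ∈ coeff B F, Φ₁₁ b = b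
  idem₁₂ : ∀ y ∈ F, Φ₁₂ y = y
  idem₂₁ : ∀ x ∈ F, P x = x
  idem₂₂ : ∀ k ∈ compacts B F, Φ₂₂ k = k
  norm_le : ∀ b ∈ coeff B (⊤ : Submodule ℂ E), ∀ y x : E, ∀ k ∈ compacts B (⊤ : Submodule ℂ E),
    ∀ M : ℝ, 0 ≤ M → NormLE B M b y x k → NormLE B M (Φ₁₁ b) (Φ₁₂ y) (P x) (Φ₂₂ k)

end Definitions

/-- The assertion of Q1: for every C*-algebra `B`, every (complete) right Hilbert `B`-module `E`,
every closed ternary subspace `F` and every contractive linear idempotent `P` of `E` onto `F`,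
`P` is the `(2,1)`-corner restriction of a blockwise conditional expectation of `L(E)` onto
`L(F)`. -/
def Question : Prop :=
  ∀ (B : Type) [NonUnitalCStarAlgebra B] [PartialOrder B] [StarOrderedRing B]
    (E : Type) [NormedAddCommGroup E] [NormedSpace ℂ E] [CompleteSpace E] [SMul Bᵐᵒᵖ E]
    [CStarModule Bᵐᵒᵖ E] (F : Submodule ℂ E),
    IsClosed (F : Set E) →
    (∀ x ∈ F, ∀ y ∈ F, ∀ z ∈ F, act x (ip B y z) ∈ F) →
    ∀ P : E →ₗ[ℂ] E, (∀ x, P x ∈ F) → (∀ x ∈ F, P x = x) → (∀ x, ‖P x‖ ≤ ‖x‖) →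
    ∃ (Φ₁₁ : B →ₗ[ℂ] B) (Φ₁₂ : E →ₗ[ℂ] E) (Φ₂₂ : (E →L[ℂ] E) →ₗ[ℂ] (E →L[ℂ] E)),
      IsBlockwiseCondExp B F Φ₁₁ Φ₁₂ P Φ₂₂

section Auxiliary

variable {B : Type} [NonUnitalCStarAlgebra B] [PartialOrder B] [StarOrderedRing B]
variable {E : Type} [NormedAddCommGroup E] [NormedSpace ℂ E] [SMul Bᵐᵒᵖ E] [CStarModule Bᵐᵒᵖ E]

lemma ip_zero_left (z : E) : ip B (0 : E) z = 0 := by
  simp [ip]

lemma mem_compacts {S : Submodule ℂ E} {T : E →L[ℂ] E} {x y : E} (hx : x ∈ S) (hy : y ∈ S)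
    (h : ∀ z : E, T z = act x (ip B y z)) : T ∈ compacts B S :=
  Submodule.le_topologicalClosure _ (Submodule.subset_span ⟨x, hx, y, hy, h⟩)

lemma exists_approx {S : Submodule ℂ E} {T : E →L[ℂ] E} (hT : T ∈ compacts B S) {ε : ℝ}
    (hε : 0 < ε) : ∃ T' ∈ Submodule.span ℂ {T : E →L[ℂ] E | ∃ x ∈ S, ∃ y ∈ S,
      ∀ z : E, T z = act x (ip B y z)}, ‖T - T'‖ < ε := by
  have hk2 : T ∈ closure ((Submodule.span ℂ {T : E →L[ℂ] E | ∃ x ∈ S, ∃ y ∈ S,
      ∀ z : E, T z = act x (ip B y z)} : Submodule ℂ (E →L[ℂ] E)) : Set (E →L[ℂ] E)) := hT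
  obtain ⟨T', hT', hd⟩ := Metric.mem_closure_iff.mp hk2 ε hε
  exact ⟨T', hT', by rwa [dist_eq_norm] at hd⟩

end Auxiliary

section Abstract

variable {A : Type} [CStarAlgebra A] [PartialOrder A] [StarOrderedRing A]

lemma ip_eq (y z : Aᵐᵒᵖ) : ip A y z = star (unop y) * unop z := rfl

lemma act_ip (x y z : Aᵐᵒᵖ) : act x (ip A y z) = z * star y * x := rfl

/-- The subspace `F = A e` of the right Hilbert `A`-module `E = A` (realised as `Aᵐᵒᵖ`). -/
noncomputable def Fsub (e : A) : Submodule ℂ Aᵐᵒᵖ where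
  carrier := {x | op e * x = x}
  add_mem' := by
    intro a b (ha : op e * a = a) (hb : op e * b = b)
    change op e * (a + b) = a + b
    rw [mul_add, ha, hb]
  zero_mem' := by
    change op e * 0 = 0
    rw [mul_zero]
  smul_mem' := by
    intro c a (ha : op e * a = a)
    change op e * (c • a) = c • a
    rw [mul_smul_comm, ha]

lemma mem_Fsub {e : A} {x : Aᵐᵒᵖ} : x ∈ Fsub e ↔ op e * x = x := Iff.rfl

lemma isClosed_Fsub (e : A) : IsClosed (Fsub e : Set Aᵐᵒᵖ) := by
  change IsClosed {x : Aᵐᵒᵖ | op e * x = x}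
  exact isClosed_eq (by fun_prop) (by fun_prop)

lemma ternary_Fsub (e : A) : ∀ x ∈ Fsub e, ∀ y ∈ Fsub e, ∀ z ∈ Fsub e,
    act x (ip A y z) ∈ Fsub e := by
  intro x hx y hy z hz
  rw [act_ip, mem_Fsub, ← mul_assoc, ← mul_assoc, mem_Fsub.mp hz]

lemma pairNorm_zero (y : Aᵐᵒᵖ) : pairNorm A 0 y = ‖y‖ := by
  rw [pairNorm, ip_eq, mul_zero, zero_add, CStarRing.norm_star_mul_self,
    Real.sqrt_mul_self (norm_nonneg _), norm_unop]

/-- Left multiplication by `b` on `E = A`. -/
noncomputable def lmul (b : A) : Aᵐᵒᵖ →L[ℂ] Aᵐᵒᵖ := (ContinuousLinearMap.mul ℂ Aᵐᵒᵖ).flip (op b)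

lemma lmul_apply (b : A) (z : Aᵐᵒᵖ) : lmul b z = z * op b := rfl

lemma lmul_mem_top (b : A) : lmul b ∈ compacts A (⊤ : Submodule ℂ Aᵐᵒᵖ) := by
  refine mem_compacts (x := op b) (y := 1) trivial trivial fun z => ?_
  rw [act_ip, star_one, mul_one, lmul_apply]

/-- If `y ∈ F = A e` then left multiplication by `y y*` belongs to `K(F)`. -/
lemma lmul_mem_Fsub {e y : A} (hy : y * e = y) : lmul (y * star y) ∈ compacts A (Fsub e) := by
  have hy' : op y ∈ Fsub e := by rw [mem_Fsub, ← op_mul, hy]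
  refine mem_compacts (x := op y) (y := op y) hy' hy' fun z => ?_
  rw [act_ip, lmul_apply, mul_assoc, ← op_star, ← op_mul]

lemma normLE_of_unitary {u : A} (hu : star u * u = 1) : NormLE A 1 0 0 0 (lmul u) := by
  intro c _ z
  have h1 : act (0 : Aᵐᵒᵖ) c + lmul u z = z * op u := by
    change op c * 0 + z * op u = _
    rw [mul_zero, zero_add]
  have h2 : ip A (z * op u) (z * op u) = star (unop z) * unop z := by
    rw [ip_eq, unop_mul, unop_op, star_mul, mul_assoc, ← mul_assoc (star u), hu, one_mul]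
  rw [ip_zero_left, zero_mul, zero_add, h1, one_mul]
  unfold pairNorm
  apply Real.sqrt_le_sqrt
  rw [h2, mul_zero, zero_add, ip_eq]
  exact CStarAlgebra.norm_le_norm_of_nonneg_of_le (star_mul_self_nonneg _)
    (le_add_of_nonneg_left (star_mul_self_nonneg _))

lemma tendsto_compact {e : A} {y : ℕ → A} (hn : ∀ n, ‖y n‖ ≤ 1)
    (hlim : ∀ x : A, x * e = x → Filter.Tendsto (fun n => star x * y n) Filter.atTop (nhds 0))
    (k : Aᵐᵒᵖ →L[ℂ] Aᵐᵒᵖ) (hk : k ∈ compacts A (Fsub e)) :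
    Filter.Tendsto (fun n => k (op (y n))) Filter.atTop (nhds 0) := by
  have hspan : ∀ k' ∈ Submodule.span ℂ {T : Aᵐᵒᵖ →L[ℂ] Aᵐᵒᵖ | ∃ x ∈ Fsub e, ∃ y ∈ Fsub e,
      ∀ z : Aᵐᵒᵖ, T z = act x (ip A y z)},
      Filter.Tendsto (fun n => k' (op (y n))) Filter.atTop (nhds 0) := by
    intro k' hk'
    induction hk' using Submodule.span_induction with
    | mem T hT =>
      obtain ⟨x, -, w, hw, h⟩ := hT
      have h1 := hlim (unop w) (congrArg unop (mem_Fsub.mp hw))
      have h2 : Filter.Tendsto (fun n => op (star (unop w) * y n) * x) Filter.atTop (nhds 0) := by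
        have h3 := ((continuous_op.tendsto 0).comp h1).mul_const x
        simpa using h3
      exact h2.congr fun n => (h _).symm
    | zero => simp
    | add a b _ _ ha hb => simpa using ha.add hb
    | smul c a _ ha => simpa using ha.const_smul c
  rw [Metric.tendsto_atTop]
  intro ε hε
  obtain ⟨k', hk', hd⟩ := exists_approx hk (half_pos hε)
  obtain ⟨N, hN⟩ := (Metric.tendsto_atTop.mp (hspan k' hk')) (ε / 2) (half_pos hε)
  refine ⟨N, fun n hn' => ?_⟩
  have h1 := hN n hn'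
  rw [dist_zero_right] at h1 ⊢
  calc ‖k (op (y n))‖ = ‖(k - k') (op (y n)) + k' (op (y n))‖ := by rw [sub_apply]; simp
    _ ≤ ‖(k - k') (op (y n))‖ + ‖k' (op (y n))‖ := norm_add_le _ _
    _ ≤ ‖k - k'‖ * ‖op (y n)‖ + ‖k' (op (y n))‖ := by
        gcongr; exact ContinuousLinearMap.le_opNorm _ _
    _ ≤ ‖k - k'‖ * 1 + ‖k' (op (y n))‖ := by
        gcongr; exact hn n
    _ < ε / 2 + ε / 2 := by
        rw [mul_one]
        exact add_lt_add hd h1
    _ = ε := by ring

/-- If the unital C*-algebra `A` contains an idempotent `e` of norm one and elements `y n` with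
`(y n)* (y n) = e` and `x* (y n) → 0` for all `x ∈ A e`, then the idempotent `P x = x e` of `E = A`
onto `F = A e` has no blockwise extension. -/
theorem not_question_of {e : A} (hee : e * e = e) (he0 : ‖e‖ = 1)
    {y : ℕ → A} (hy : ∀ n, star (y n) * y n = e) (hye : ∀ n, y n * e = y n)
    (hlim : ∀ x : A, x * e = x → Filter.Tendsto (fun n => star x * y n) Filter.atTop (nhds 0)) :
    ¬ Question := by
  intro hQ
  have hn1 : ∀ n, ‖y n‖ = 1 := by
    intro n
    have h1 := CStarRing.norm_star_mul_self (x := y n)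
    rw [hy, he0] at h1
    nlinarith [norm_nonneg (y n)]
  obtain ⟨Φ₁₁, Φ₁₂, Φ₂₂, hΦ⟩ := hQ A Aᵐᵒᵖ (Fsub e) (isClosed_Fsub e) (ternary_Fsub e)
    (LinearMap.mulLeft ℂ (op e))
    (fun x => by
      rw [mem_Fsub, LinearMap.mulLeft_apply, ← mul_assoc, ← op_mul, hee])
    (fun x hx => hx)
    (fun x => by
      rw [LinearMap.mulLeft_apply]
      refine (norm_mul_le _ _).trans ?_
      rw [norm_op, he0, one_mul])
  have hlim := tendsto_compact (fun n => (hn1 n).le) hlim (Φ₂₂ (lmul 1))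
    (hΦ.mem₂₂ _ (lmul_mem_top 1))
  have hge : ∀ n, 1 ≤ ‖Φ₂₂ (lmul 1) (op (y n))‖ := by
    intro n
    have hp1 : star (y n * star (y n)) = y n * star (y n) := by rw [star_mul, star_star]
    have hp3 : (y n * star (y n)) * y n = y n := by rw [mul_assoc, hy, hye]
    have hp2 : (y n * star (y n)) * (y n * star (y n)) = y n * star (y n) := by
      rw [← mul_assoc, hp3]
    have h0 : star ((1 : A) - (2 : ℂ) • (y n * star (y n))) *
        ((1 : A) - (2 : ℂ) • (y n * star (y n))) = 1 := by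
      have h1 : star ((1 : A) - (2 : ℂ) • (y n * star (y n))) =
          (1 : A) - (2 : ℂ) • (y n * star (y n)) := by
        rw [star_sub, star_one, star_smul, hp1]
        norm_num
      rw [h1]
      simp only [sub_mul, mul_sub, one_mul, mul_one, smul_mul_smul_comm, hp2]
      module
    have h1 := hΦ.norm_le 0 (zero_mem _) 0 0 _ (lmul_mem_top _) 1 zero_le_one
      (normLE_of_unitary h0)
    have h2 : lmul ((1 : A) - (2 : ℂ) • (y n * star (y n))) =
        lmul 1 - (2 : ℂ) • lmul (y n * star (y n)) := by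
      refine ContinuousLinearMap.ext fun z => ?_
      rw [sub_apply, smul_apply, lmul_apply, lmul_apply, lmul_apply, op_sub, mul_sub, op_smul,
        mul_smul_comm]
    rw [h2, map_sub, map_smul, hΦ.idem₂₂ _ (lmul_mem_Fsub (hye n)), map_zero, map_zero,
      map_zero] at h1
    have h3 := h1 0 (zero_mem _) (op (y n))
    have h4 : act (0 : Aᵐᵒᵖ) (0 : A) + (Φ₂₂ (lmul 1) - (2 : ℂ) • lmul (y n * star (y n))) (op (y n))
        = Φ₂₂ (lmul 1) (op (y n)) - (2 : ℂ) • op (y n) := by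
      change op (0 : A) * 0 + _ = _
      rw [mul_zero, zero_add, sub_apply, smul_apply, lmul_apply, ← op_mul, hp3]
    rw [ip_zero_left, zero_mul, zero_add, h4, pairNorm_zero, pairNorm_zero, norm_op, hn1,
      one_mul] at h3
    have h8 : ‖(2 : ℂ) • op (y n)‖ = 2 := by
      rw [norm_smul, norm_op, hn1]; norm_num
    have h9 := norm_sub_norm_le ((2 : ℂ) • op (y n)) (Φ₂₂ (lmul 1) (op (y n)))
    rw [h8, norm_sub_rev] at h9
    linarith
  have := ge_of_tendsto' hlim.norm hge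
  rw [norm_zero] at this
  linarith

end Abstract

section Counterexample

/-- The Hilbert space `ℓ²(ℕ)`. -/
abbrev H : Type := lp (fun _ : ℕ => ℂ) 2

/-- The C*-algebra `B(H)` of all bounded operators on `ℓ²(ℕ)`. -/
abbrev BH : Type := H →L[ℂ] H

/-- The standard basis of `ℓ²(ℕ)`. -/
noncomputable def bas (n : ℕ) : H := lp.single 2 n (1 : ℂ)

lemma norm_bas (n : ℕ) : ‖bas n‖ = 1 := by
  simp [bas, lp.norm_single]

/-- The rank one operator `x⟨y, ·⟩` on `H`. -/
noncomputable def ket (x y : H) : BH := InnerProductSpace.rankOne ℂ x y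

lemma ket_mul (x y z w : H) : ket x y * ket z w = inner ℂ y z • ket x w := by
  ext1 u
  simp [ket, ContinuousLinearMap.mul_def, smul_smul, mul_comm]

lemma ket_mul' (x z w : H) (hz : ‖z‖ = 1) : ket x z * ket z w = ket x w := by
  rw [ket_mul, inner_self_eq_norm_sq_to_K, hz]; simp

lemma star_ket (x y : H) : star (ket x y) = ket y x := by
  rw [ContinuousLinearMap.star_eq_adjoint]; exact InnerProductSpace.adjoint_rankOne x y

lemma norm_ket (x y : H) : ‖ket x y‖ = ‖x‖ * ‖y‖ := by simp [ket]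

lemma tendsto_star_mul (x : BH) (hx : x * ket (bas 0) (bas 0) = x) :
    Filter.Tendsto (fun n => star x * ket (bas n) (bas 0)) Filter.atTop (nhds 0) := by
  have h1 : x = ket (x (bas 0)) (bas 0) := by
    conv_lhs => rw [← hx]
    ext1 u
    simp [ket]
  have key : ∀ n, star x * ket (bas n) (bas 0) =
      (inner ℂ (x (bas 0)) (bas n)) • ket (bas 0) (bas 0) := by
    intro n
    have h2 : star x = ket (bas 0) (x (bas 0)) := by
      rw [h1, star_ket, ← h1]
    rw [h2, ket_mul]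
  have h3 : Filter.Tendsto (fun n => inner ℂ (x (bas 0)) (bas n)) Filter.atTop (nhds 0) := by
    have h4 : Summable fun n => ‖(x (bas 0) : H) n‖ ^ (2 : ENNReal).toReal :=
      (memℓp_gen_iff (by norm_num)).mp (lp.memℓp (x (bas 0)))
    have h5 : Filter.Tendsto (fun n => ‖(x (bas 0) : H) n‖ ^ 2) Filter.atTop (nhds 0) := by
      simpa using h4.tendsto_atTop_zero
    have h6 : Filter.Tendsto (fun n => ‖(x (bas 0) : H) n‖) Filter.atTop (nhds 0) := by
      have := (Real.continuous_sqrt.tendsto 0).comp h5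
      simpa [Function.comp_def, Real.sqrt_sq (norm_nonneg _)] using this
    rw [tendsto_zero_iff_norm_tendsto_zero]
    refine h6.congr fun n => ?_
    have h8 : inner ℂ (x (bas 0)) (bas n) = inner ℂ ((x (bas 0) : H) n) (1 : ℂ) :=
      lp.inner_single_right n 1 _
    rw [h8]
    simp
  have h7 := h3.smul_const (ket (bas 0) (bas 0))
  rw [zero_smul] at h7
  exact h7.congr fun n => (key n).symm

end Counterexample

/-- Q1 has a negative answer. -/
theorem result : ¬ Question :=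
  not_question_of (A := BH) (e := ket (bas 0) (bas 0)) (y := fun n => ket (bas n) (bas 0))
    (ket_mul' _ _ _ (norm_bas 0))
    (by rw [norm_ket, norm_bas, mul_one])
    (fun n => by rw [star_ket, ket_mul' _ _ _ (norm_bas n)])
    (fun n => ket_mul' _ _ _ (norm_bas 0))
    tendsto_star_mul

end Pool.Agent.Results.MP_035205_an.ContractiveIdempotent
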